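import Pool.Agent.MP_9ab903_nt.TH.TD
import Pool.Agent.MP_9ab903_nt.NT.V4
import Pool.Agent.MP_dfae13_nt.NGW.Bad
import Pool.Agent.MP_dfae13_nt.R.Gen

/-! # [NG3-G] the 3-part of the formula for the Weil restrictions `Res_{F/ℚ} E'` -/

set_option autoImplicit false

open NumberField IsDedekindDomain
open CM27 CMT CF
open scoped Classical

namespace NG3W

theorem part_of {K : Type} [Field K] [NumberField K] (W : WeierstrassCurve K)
    (h : SBSD3.ThreePartRankZero W) (S : Finset ℕ) (hS : WR.IsBadSet W S) :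
    WeilRes.PartFormula W 3 S := by
  obtain ⟨-, hfin, L, hL, -, hL1, hsha, q, hq, hq2, hqe⟩ := h
  exact WeilRes.partFormula_of W 3 S hS hfin L hL hL1 hsha q hq hq2 hqe

/-- A model with unit discriminant gives good reduction. -/
theorem hasGoodReduction_of_unit (A : Type) [CommRing A] [IsDomain A] [IsDiscreteValuationRing A]
    (K : Type) [Field K] [Algebra A K] [IsFractionRing A K] (I : WeierstrassCurve A)
    (hΔ : IsUnit I.Δ) : WeierstrassCurve.HasGoodReduction A ((I.map (algebraMap A K)).minimal A) := by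
  obtain ⟨T, hT, hTm⟩ : ∃ T : WeierstrassCurve.VariableChange K,
      (I.map (algebraMap A K)).minimal A = T • I.map (algebraMap A K) ∧
        WeierstrassCurve.IsMinimal A (T • I.map (algebraMap A K)) :=
    ⟨_, rfl, ((I.map (algebraMap A K)).exists_isMinimal A).choose_spec⟩
  have hu := VC63.unit_of_good I hΔ T hTm
  have hu' : (IsDiscreteValuationRing.maximalIdeal A).valuation K ((T.u⁻¹ : Kˣ) : K) = 1 := by
    rw [Units.val_inv_eq_inv_val, map_inv₀, hu, inv_one]
  have hg : (IsDiscreteValuationRing.maximalIdeal A).valuation K (T • I.map (algebraMap A K)).Δ = 1 := by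
    rw [WeierstrassCurve.variableChange_Δ, map_mul, map_pow, hu', one_pow, one_mul,
      WeierstrassCurve.map_Δ, CMT.val_algebraMap_unit A _ hΔ]
  exact ⟨by rw [hT]; exact hg⟩

/-- the discriminant -/
theorem Ep_Δ {R : Type*} [CommRing R] (o : R) (ho : o ^ 2 + o + 1 = 0) :
    (TH.Ep o).Δ = o * (3 + o) ^ 2 := by
  rw [TH.Ep, WeierstrassCurve.Δ, WeierstrassCurve.b₂, WeierstrassCurve.b₄, WeierstrassCurve.b₆,
    WeierstrassCurve.b₈]
  simp only
  linear_combination (-27 * o ^ 6 + 11 * o ^ 5 - 8 * o ^ 4 + 21 * o ^ 3 + 19 * o ^ 2 - 9 * o) * ho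

theorem Ep_map {R S : Type*} [CommRing R] [CommRing S] (f : R →+* S) (o : R) :
    (TH.Ep o).map f = TH.Ep (f o) := by
  rw [TH.Ep, TH.Ep, WeierstrassCurve.map]
  simp only [map_zero, map_add, map_pow, map_ofNat, map_one]

/-- the set of bad primes -/
theorem badSet_Ep (F : IntermediateField ℚ ℂ) [NumberField F] (hw : w ∈ F) :
    WR.IsBadSet (TH.EpF F hw) (7 * (discr F).natAbs).primeFactors := by
  have hD0 : (discr F).natAbs ≠ 0 := Int.natAbs_ne_zero.2 (discr_ne_zero F)
  refine ⟨fun p hp => Nat.prime_of_mem_primeFactors hp, ?_⟩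
  intro p hp hpS v hv
  have hv' : (p : 𝓞 F) ∈ v.asIdeal := hv
  have hndvd : ¬ p ∣ 7 * (discr F).natAbs := by
    intro h1
    exact hpS (Nat.mem_primeFactors.2 ⟨hp, h1, mul_ne_zero (by norm_num) hD0⟩)
  have hp7 : p ≠ 7 := by
    rintro rfl
    exact hndvd (dvd_mul_right _ _)
  have hpD : ¬ (p : ℤ) ∣ discr F := fun h => hndvd (Dvd.dvd.mul_left (Int.natCast_dvd.1 h) _)
  refine ⟨NGW.not_ram_of_discr F p hp hpD v hv', ?_⟩
  set o : 𝓞 F := eF F hw TH.om with ho
  have hoF : (o : F) = ⟨w, hw⟩ := by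
    apply Subtype.ext
    rw [ho, eF_apply, emb_apply, TH.om]
    simp
  have hoq : o ^ 2 + o + 1 = 0 := by
    rw [ho, ← map_pow, ← map_add, ← map_one (eF F hw), ← map_add, TH.om_quad, map_zero]
  set o' := algebraMap (𝓞 F) (v.adicCompletionIntegers F) o with ho'
  have hoq' : o' ^ 2 + o' + 1 = 0 := by
    rw [ho', ← map_pow, ← map_add, ← map_one (algebraMap (𝓞 F) (v.adicCompletionIntegers F)),
      ← map_add, hoq, map_zero]
  have e : (TH.EpF F hw).baseChange (v.adicCompletion F) =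
      (TH.Ep o').map (algebraMap (v.adicCompletionIntegers F) (v.adicCompletion F)) := by
    rw [TH.EpF, WeierstrassCurve.baseChange, Ep_map, Ep_map, ← hoF]
    rfl
  rw [e]
  refine hasGoodReduction_of_unit _ _ _ ?_
  rw [Ep_Δ o' hoq']
  have hou : IsUnit o' := by
    refine IsUnit.of_mul_eq_one (o' ^ 2) ?_
    linear_combination (o' - 1) * hoq'
  refine hou.mul (IsUnit.pow 2 ?_)
  have h1 : (3 : v.adicCompletionIntegers F) + o' =
      algebraMap (𝓞 F) (v.adicCompletionIntegers F) (3 + o) := by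
    rw [map_add, map_ofNat]
  rw [h1]
  apply CMT.isUnit_completion'
  intro h2
  have h7 : ((7 : ℕ) : 𝓞 F) ∈ v.asIdeal := by
    have h3 : ((7 : ℕ) : 𝓞 F) = (3 + o) * (2 - o) := by
      push_cast
      linear_combination hoq
    rw [h3]
    exact Ideal.mul_mem_right _ _ h2
  obtain ⟨a, b, hab⟩ := (Nat.isCoprime_iff_coprime.2
    ((Nat.coprime_primes hp (by norm_num : Nat.Prime 7)).2 hp7) : IsCoprime (p : ℤ) ((7 : ℕ) : ℤ))
  apply v.isPrime.ne_top
  rw [Ideal.eq_top_iff_one]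
  have h5 : ((a : 𝓞 F)) * p + b * ((7 : ℕ) : 𝓞 F) = 1 := by
    exact_mod_cast congrArg (Int.cast : ℤ → 𝓞 F) hab
  rw [← h5]
  exact add_mem (Ideal.mul_mem_left _ _ hv') (Ideal.mul_mem_left _ _ h7)

end NG3W
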